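import Mathlib

/-!
# Intertwiners for commuting endomorphisms with given corner maps

`ι : M_n(ℂ) → R` is a (non-unital) star homomorphism, `P = ι 1`, and `θ : R → R` a star endomorphism
with `P θ(ι a) P = ι (∑ S_k a S_k^*)`.
-/

set_option autoImplicit false
set_option linter.unusedSectionVars false

namespace Pool.Agent.D0H28.NoDil

open Matrix

variable {R : Type*} [Ring R] [StarRing R] [Algebra ℂ R] [StarModule ℂ R]
variable {n : Type*} [Fintype n] [DecidableEq n]

/-- The intertwiner with indices `u`, `v`. -/
noncomputable def X (ι : Matrix n n ℂ →⋆ₙₐ[ℂ] R) (θ : R →⋆ₙₐ[ℂ] R) (u v : n) : R :=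
  ∑ m, θ (ι (single m u 1)) * ι (single v m 1)

lemma mul_single_sum (a : Matrix n n ℂ) (m u : n) :
    a * single m u 1 = ∑ k, a k m • single k u (1 : ℂ) := by
  ext i j
  rw [Matrix.sum_apply]
  simp only [Matrix.smul_apply, smul_eq_mul]
  by_cases hj : j = u
  · subst hj
    rw [Matrix.mul_single_apply_same, Finset.sum_eq_single i]
    · simp
    · intro b _ hb
      rw [Matrix.single_apply_of_row_ne hb]
      simp
    · simp
  · rw [Matrix.mul_single_apply_of_ne _ _ _ _ _ hj]
    rw [Finset.sum_eq_zero]
    intro b _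
    rw [Matrix.single_apply_of_col_ne _ _ (Ne.symm hj)]
    simp

lemma single_mul_sum (a : Matrix n n ℂ) (v k : n) :
    single v k 1 * a = ∑ m, a k m • single v m (1 : ℂ) := by
  ext i j
  rw [Matrix.sum_apply]
  simp only [Matrix.smul_apply, smul_eq_mul]
  by_cases hi : i = v
  · subst hi
    rw [Matrix.single_mul_apply_same, Finset.sum_eq_single j]
    · simp
    · intro b _ hb
      rw [Matrix.single_apply_of_col_ne _ _ hb]
      simp
    · simp
  · rw [Matrix.single_mul_apply_of_ne _ _ _ _ _ hi]
    rw [Finset.sum_eq_zero]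
    intro b _
    rw [Matrix.single_apply_of_row_ne (Ne.symm hi)]
    simp

variable (ι : Matrix n n ℂ →⋆ₙₐ[ℂ] R) (θ : R →⋆ₙₐ[ℂ] R)

lemma X_inter (u v : n) (a : Matrix n n ℂ) : θ (ι a) * X ι θ u v = X ι θ u v * ι a := by
  unfold X
  rw [Finset.mul_sum, Finset.sum_mul]
  have h1 : ∀ m, θ (ι a) * (θ (ι (single m u 1)) * ι (single v m 1)) =
      ∑ k, a k m • (θ (ι (single k u 1)) * ι (single v m 1)) := by
    intro m
    rw [← mul_assoc, ← map_mul, ← map_mul, mul_single_sum, map_sum, map_sum, Finset.sum_mul]
    refine Finset.sum_congr rfl fun k _ => ?_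
    rw [map_smul, map_smul, smul_mul_assoc]
  have h2 : ∀ k, θ (ι (single k u 1)) * ι (single v k 1) * ι a =
      ∑ m, a k m • (θ (ι (single k u 1)) * ι (single v m 1)) := by
    intro k
    rw [mul_assoc, ← map_mul, single_mul_sum, map_sum, Finset.mul_sum]
    refine Finset.sum_congr rfl fun m _ => ?_
    rw [map_smul, mul_smul_comm]
  rw [Finset.sum_congr rfl fun m _ => h1 m, Finset.sum_congr rfl fun k _ => h2 k,
    Finset.sum_comm]

lemma X_mul_P (u v : n) : X ι θ u v * ι 1 = X ι θ u v := by
  unfold X
  rw [Finset.sum_mul]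
  refine Finset.sum_congr rfl fun m _ => ?_
  rw [mul_assoc, ← map_mul, mul_one]

lemma star_single' (i j : n) : star (single i j (1 : ℂ)) = single j i 1 := by
  rw [Matrix.star_eq_conjTranspose, Matrix.conjTranspose_single, star_one]

lemma star_X (u v : n) : star (X ι θ u v) = ∑ m, ι (single m v 1) * θ (ι (single u m 1)) := by
  unfold X
  rw [star_sum]
  refine Finset.sum_congr rfl fun m _ => ?_
  rw [star_mul, ← map_star, ← map_star, ← map_star, star_single', star_single']

variable {T : Matrix n n ℂ → Matrix n n ℂ}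

lemma X_star_mul (hT : ∀ a, ι 1 * θ (ι a) * ι 1 = ι (T a)) (u v u' v' : n) :
    star (X ι θ u v) * X ι θ u' v' = T (single u u' 1) v v' • ι 1 := by
  have h1 : ∀ m k, ι (single m v 1) * θ (ι (single u m 1)) *
      (θ (ι (single k u' 1)) * ι (single v' k 1)) =
      if m = k then ι (single m v 1 * T (single u u' 1) * single v' m 1) else 0 := by
    intro m k
    have e1 : ι (single m v 1) * θ (ι (single u m 1)) *
      (θ (ι (single k u' 1)) * ι (single v' k 1)) =
      ι (single m v 1) * (θ (ι (single u m 1 * single k u' 1)) * ι (single v' k 1)) := by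
      simp only [map_mul, mul_assoc]
    rw [e1]
    split_ifs with h
    · subst h
      rw [Matrix.single_mul_single_same, mul_one]
      have e2 : ι (single m v 1 * T (single u u' 1) * single v' m 1) =
          ι (single m v 1) * (ι 1 * θ (ι (single u u' 1)) * ι 1) * ι (single v' m 1) := by
        rw [hT, map_mul, map_mul]
      rw [e2]
      have e3 : ι (single m v 1) * (ι 1 * θ (ι (single u u' 1)) * ι 1) * ι (single v' m 1) =
          (ι (single m v 1) * ι 1) * θ (ι (single u u' 1)) * (ι 1 * ι (single v' m 1)) := by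
        noncomm_ring
      rw [e3, ← map_mul, ← map_mul, mul_one, one_mul, mul_assoc]
    · rw [Matrix.single_mul_single_of_ne _ _ _ _ h]
      simp
  rw [star_X]
  unfold X
  rw [Finset.sum_mul]
  simp_rw [Finset.mul_sum, h1]
  simp only [Finset.sum_ite_eq, Finset.mem_univ, if_true]
  rw [← map_sum, ← map_smul]
  congr 1
  ext i j
  rw [Matrix.sum_apply, Matrix.smul_apply, Matrix.one_apply]
  have h2 : ∀ m, (single m v 1 * T (single u u' 1) * single v' m 1 : Matrix n n ℂ) =
      single m m (T (single u u' 1) v v') := by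
    intro m
    rw [mul_assoc]
    ext i j
    by_cases hi : i = m
    · subst hi
      rw [Matrix.single_mul_apply_same]
      by_cases hj : j = i
      · subst hj
        rw [Matrix.mul_single_apply_same, Matrix.single_apply_same]
        simp
      · rw [Matrix.mul_single_apply_of_ne _ _ _ _ _ hj, Matrix.single_apply_of_col_ne _ _ (Ne.symm hj)]
        simp
    · rw [Matrix.single_mul_apply_of_ne _ _ _ _ _ hi, Matrix.single_apply_of_row_ne (Ne.symm hi)]
  simp_rw [h2]
  by_cases hij : i = j
  · subst hij
    rw [Finset.sum_eq_single i]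
    · simp
    · intro b _ hb
      rw [Matrix.single_apply_of_row_ne hb]
    · simp
  · rw [Finset.sum_eq_zero]
    · simp [hij]
    · intro b _
      by_cases hb : b = i
      · subst hb
        rw [Matrix.single_apply_of_col_ne _ _ hij]
      · rw [Matrix.single_apply_of_row_ne hb]

lemma P_mul_X (hT : ∀ a, ι 1 * θ (ι a) * ι 1 = ι (T a)) (u v : n) :
    ι 1 * X ι θ u v = ι (∑ m, T (single m u 1) * single v m 1) := by
  unfold X
  rw [Finset.mul_sum, map_sum]
  refine Finset.sum_congr rfl fun m _ => ?_
  rw [map_mul, ← hT]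
  have : ι (single v m 1) = ι 1 * ι (single v m 1) := by rw [← map_mul, one_mul]
  rw [this]
  have h1 : (ι 1 * ι 1 : R) = ι 1 := by rw [← map_mul, one_mul]
  rw [mul_assoc (ι 1 * θ (ι (single m u 1))) (ι 1) _, ← mul_assoc (ι 1) (ι 1), h1, mul_assoc]

/-- The data attached to a Kraus family `S`: pairwise orthogonal intertwiners `x k`. -/
structure Good {κ : Type*} [Fintype κ] [DecidableEq κ] (S : κ → Matrix n n ℂ) (x : κ → R) :
    Prop where
  inter : ∀ a k, θ (ι a) * x k = x k * ι a
  mulP : ∀ k, x k * ι 1 = x k
  orth : ∀ k l, star (x k) * x l = if k = l then ι 1 else 0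
  comp : ∀ k, ι 1 * x k = ι (S k)
  decomp : θ (ι 1) * ι 1 = ∑ k, x k * ι (star (S k))

theorem exists_good {κ : Type*} [Fintype κ] [DecidableEq κ] (S : κ → Matrix n n ℂ)
    (u v : κ → n) (hS : ∀ k l, S l (v k) (u k) = if k = l then 1 else 0)
    (hR : ∀ b : R, star b * b = 0 → b = 0)
    (hT : ∀ a, ι 1 * θ (ι a) * ι 1 = ι (∑ k, S k * a * star (S k))) :
    ∃ x, Good ι θ S x := by
  have hP : (ι 1 * ι 1 : R) = ι 1 := by rw [← map_mul, one_mul]
  have hPs : star (ι 1) = ι 1 := by rw [← map_star, star_one]
  have horth : ∀ k l, star (X ι θ (u k) (v k)) * X ι θ (u l) (v l) = if k = l then ι 1 else 0 := by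
    intro k l
    rw [X_star_mul ι θ hT]
    have : (∑ j, S j * single (u k) (u l) 1 * star (S j) : Matrix n n ℂ) (v k) (v l) =
        if k = l then 1 else 0 := by
      rw [Matrix.sum_apply]
      have h1 : ∀ j, (S j * single (u k) (u l) 1 * star (S j) : Matrix n n ℂ) (v k) (v l) =
          S j (v k) (u k) * star (S j (v l) (u l)) := by
        intro j
        rw [mul_assoc, Matrix.mul_apply, Finset.sum_eq_single (u k)]
        · rw [Matrix.single_mul_apply_same, one_mul, Matrix.star_apply]
        · intro b _ hb
          rw [Matrix.single_mul_apply_of_ne _ _ _ _ _ hb, mul_zero]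
        · simp
      simp_rw [h1, hS]
      simp [eq_comm]
    rw [this]
    split_ifs <;> simp
  have hcomp : ∀ k, ι 1 * X ι θ (u k) (v k) = ι (S k) := by
    intro k
    rw [P_mul_X ι θ hT]
    congr 1
    simp_rw [Finset.sum_mul]
    rw [Finset.sum_comm]
    have h1 : ∀ j, ∑ m, S j * single m (u k) 1 * star (S j) * single (v k) m 1 =
        star (S j (v k) (u k)) • S j := by
      intro j
      have h2 : ∀ m, S j * single m (u k) 1 * star (S j) * single (v k) m 1 =
          star (S j (v k) (u k)) • (S j * single m m 1) := by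
        intro m
        rw [mul_assoc, mul_assoc, ← mul_smul_comm]
        congr 1
        ext i i'
        rw [Matrix.smul_apply]
        by_cases hi : i = m
        · subst hi
          rw [Matrix.single_mul_apply_same, one_mul]
          by_cases hi' : i' = i
          · subst hi'
            rw [Matrix.mul_single_apply_same, Matrix.single_apply_same, Matrix.star_apply]
            simp
          · rw [Matrix.mul_single_apply_of_ne _ _ _ _ _ hi',
              Matrix.single_apply_of_col_ne _ _ (Ne.symm hi'), smul_zero]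
        · rw [Matrix.single_mul_apply_of_ne _ _ _ _ _ hi,
            Matrix.single_apply_of_row_ne (Ne.symm hi), smul_zero]
      simp_rw [h2]
      rw [← Finset.smul_sum, ← Finset.mul_sum]
      congr 1
      have : ∑ m : n, single m m (1 : ℂ) = 1 := by
        ext i i'
        rw [Matrix.sum_apply]
        by_cases hii : i = i'
        · subst hii
          rw [Finset.sum_eq_single i]
          · simp
          · intro b _ hb
            rw [Matrix.single_apply_of_row_ne hb]
          · simp
        · rw [Matrix.one_apply_ne hii, Finset.sum_eq_zero]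
          intro b _
          by_cases hb : b = i
          · subst hb
            rw [Matrix.single_apply_of_col_ne _ _ hii]
          · rw [Matrix.single_apply_of_row_ne hb]
      rw [this, mul_one]
    simp_rw [h1, hS]
    simp
  refine ⟨fun k => X ι θ (u k) (v k), fun a k => X_inter ι θ _ _ a, fun k => X_mul_P ι θ _ _,
    horth, hcomp, ?_⟩
  rw [← sub_eq_zero]
  apply hR
  have hc' : ∀ k, star (X ι θ (u k) (v k)) * ι 1 = ι (star (S k)) := by
    intro k
    have := congrArg star (hcomp k)
    rw [star_mul, hPs, ← map_star] at this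
    exact this
  have hθP : θ (ι 1) * θ (ι 1) = θ (ι 1) := by rw [← map_mul, hP]
  have hθs : star (θ (ι 1)) = θ (ι 1) := by rw [← map_star, hPs]
  have hθx : ∀ k, θ (ι 1) * X ι θ (u k) (v k) = X ι θ (u k) (v k) := by
    intro k
    rw [X_inter, X_mul_P]
  have hxθ : ∀ k, star (X ι θ (u k) (v k)) * θ (ι 1) = star (X ι θ (u k) (v k)) := by
    intro k
    have := congrArg star (hθx k)
    rwa [star_mul, hθs] at this
  have e1 : star (θ (ι 1) * ι 1) * (θ (ι 1) * ι 1) = ι (∑ k, S k * star (S k)) := by
    rw [star_mul, hθs, hPs]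
    have := hT 1
    simp only [mul_one] at this
    rw [← this]
    calc ι 1 * θ (ι 1) * (θ (ι 1) * ι 1) = ι 1 * (θ (ι 1) * θ (ι 1)) * ι 1 := by noncomm_ring
      _ = _ := by rw [hθP]
  have e2 : star (θ (ι 1) * ι 1) * ∑ k, X ι θ (u k) (v k) * ι (star (S k)) =
      ι (∑ k, S k * star (S k)) := by
    rw [star_mul, hθs, hPs, Finset.mul_sum, map_sum]
    refine Finset.sum_congr rfl fun k _ => ?_
    rw [← mul_assoc, mul_assoc (ι 1), hθx, hcomp, map_mul]
  have e3 : star (∑ k, X ι θ (u k) (v k) * ι (star (S k))) * (θ (ι 1) * ι 1) =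
      ι (∑ k, S k * star (S k)) := by
    have := congrArg star e2
    rw [star_mul, star_star, ← map_star] at this
    rw [this, star_sum]
    congr 1
    refine Finset.sum_congr rfl fun k _ => ?_
    rw [star_mul, star_star]
  have e4 : star (∑ k, X ι θ (u k) (v k) * ι (star (S k))) *
      ∑ k, X ι θ (u k) (v k) * ι (star (S k)) = ι (∑ k, S k * star (S k)) := by
    rw [star_sum, Finset.sum_mul, map_sum]
    refine Finset.sum_congr rfl fun k _ => ?_
    rw [Finset.mul_sum, Finset.sum_eq_single k]
    · rw [star_mul, ← map_star, star_star]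
      calc ι (S k) * star (X ι θ (u k) (v k)) * (X ι θ (u k) (v k) * ι (star (S k)))
          = ι (S k) * (star (X ι θ (u k) (v k)) * X ι θ (u k) (v k)) * ι (star (S k)) := by
            noncomm_ring
        _ = ι (S k * star (S k)) := by
          rw [horth, if_pos rfl, ← map_mul, mul_one, map_mul]
    · intro l _ hl
      rw [star_mul]
      calc star (ι (star (S k))) * star (X ι θ (u k) (v k)) * (X ι θ (u l) (v l) * ι (star (S l)))
          = star (ι (star (S k))) * (star (X ι θ (u k) (v k)) * X ι θ (u l) (v l)) *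
            ι (star (S l)) := by noncomm_ring
        _ = 0 := by rw [horth, if_neg (Ne.symm hl), mul_zero, zero_mul]
    · simp
  rw [star_sub, sub_mul, mul_sub, mul_sub, e1, e2, e3, e4]
  simp

/-- Two intertwiners which agree on a minimal projection are equal. -/
lemma eq_of_corner {φ : R →⋆ₙₐ[ℂ] R} {f g : R} (hf : ∀ a, φ (ι a) * f = f * ι a)
    (hf1 : f * ι 1 = f) (hg : ∀ a, φ (ι a) * g = g * ι a) (hg1 : g * ι 1 = g) (j : n)
    (h : f * ι (single j j 1) = g * ι (single j j 1)) : f = g := by
  have key : ∀ m, f * ι (single m m 1) = g * ι (single m m 1) := by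
    intro m
    have e : (single m m 1 : Matrix n n ℂ) = single m j 1 * (single j j 1 * single j m 1) := by
      simp
    have e1 : ∀ w : R, (∀ a, φ (ι a) * w = w * ι a) →
        w * ι (single m m 1) = φ (ι (single m j 1)) * (w * ι (single j j 1)) * ι (single j m 1) := by
      intro w hw
      rw [e, map_mul, map_mul]
      calc w * (ι (single m j 1) * (ι (single j j 1) * ι (single j m 1)))
          = w * ι (single m j 1) * ι (single j j 1) * ι (single j m 1) := by noncomm_ring
        _ = _ := by rw [← hw, ← mul_assoc]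
    rw [e1 f hf, e1 g hg, h]
  have hone : ∑ m : n, single m m (1 : ℂ) = 1 := by
    ext i i'
    rw [Matrix.sum_apply]
    by_cases hii : i = i'
    · subst hii
      rw [Finset.sum_eq_single i]
      · simp
      · intro b _ hb
        rw [Matrix.single_apply_of_row_ne hb]
      · simp
    · rw [Matrix.one_apply_ne hii, Finset.sum_eq_zero]
      intro b _
      by_cases hb : b = i
      · subst hb
        rw [Matrix.single_apply_of_col_ne _ _ hii]
      · rw [Matrix.single_apply_of_row_ne hb]
  rw [← hf1, ← hg1, ← hone, map_sum, Finset.mul_sum, Finset.mul_sum]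
  exact Finset.sum_congr rfl fun m _ => key m

end Pool.Agent.D0H28.NoDil
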