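import Pool.Agent.D0H28.NoDil.Twist

/-!
# The unital maps on `M_6(ℂ)`
-/

set_option autoImplicit false
set_option linter.unusedSectionVars false
set_option linter.unusedSimpArgs false

namespace Pool.Agent.D0H28.NoDil

open Matrix

/-- The isometry from `ℂ^5` into `ℂ^6`. -/
def W : Matrix (Fin 6) (Fin 5) ℂ :=
  !![1, 0, 0, 0, 0; 0, 1, 0, 0, 0; 0, 0, 1, 0, 0; 0, 0, 0, 1, 0; 0, 0, 0, 0, 1; 0, 0, 0, 0, 0]

lemma W_iso : Wᴴ * W = 1 := by
  ext i j; fin_cases i <;> fin_cases j <;> simp [W, Matrix.mul_apply, Fin.sum_univ_succ]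

lemma WaW (a : Matrix (Fin 5) (Fin 5) ℂ) : W * a * Wᴴ =
    !![a 0 0, a 0 1, a 0 2, a 0 3, a 0 4, 0; a 1 0, a 1 1, a 1 2, a 1 3, a 1 4, 0;
      a 2 0, a 2 1, a 2 2, a 2 3, a 2 4, 0; a 3 0, a 3 1, a 3 2, a 3 3, a 3 4, 0;
      a 4 0, a 4 1, a 4 2, a 4 3, a 4 4, 0; 0, 0, 0, 0, 0, 0] := by
  have h1 : W * a = !![a 0 0, a 0 1, a 0 2, a 0 3, a 0 4; a 1 0, a 1 1, a 1 2, a 1 3, a 1 4;
      a 2 0, a 2 1, a 2 2, a 2 3, a 2 4; a 3 0, a 3 1, a 3 2, a 3 3, a 3 4;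
      a 4 0, a 4 1, a 4 2, a 4 3, a 4 4; 0, 0, 0, 0, 0] := by
    ext i j
    rw [Matrix.mul_apply]
    fin_cases i <;> fin_cases j <;> simp [W, Fin.sum_univ_succ]
  rw [h1]
  ext i j
  rw [Matrix.mul_apply]
  fin_cases i <;> fin_cases j <;> simp [W, Fin.sum_univ_succ, Matrix.conjTranspose_apply]

lemma W_range : W * Wᴴ + single 5 5 1 = 1 := by
  have h := WaW 1
  rw [Matrix.mul_one] at h
  rw [h]
  ext i j; fin_cases i <;> fin_cases j <;> simp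

lemma E_W : (single 5 5 1 : Matrix (Fin 6) (Fin 6) ℂ) * W = 0 := by
  ext i j; fin_cases i <;> fin_cases j <;> simp [W, Matrix.mul_apply, Fin.sum_univ_succ]

/-- The Kraus family of the first unital map. -/
def L1 : Fin 4 → Matrix (Fin 6) (Fin 6) ℂ :=
  ![single 0 0 1 + single 2 2 1, single 1 0 1 + single 3 3 1, single 4 5 1, single 5 5 1]

/-- The Kraus family of the second unital map. -/
def L2 : Fin 4 → Matrix (Fin 6) (Fin 6) ℂ :=
  ![single 0 0 1 - single 1 1 1 + single 4 4 1, single 2 5 1, single 3 5 1, single 5 5 1]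

/-- The Kraus family of the third unital map. -/
def L3 : Fin 4 → Matrix (Fin 6) (Fin 6) ℂ :=
  ![single 2 3 1 + single 3 2 1 + single 4 4 1, single 0 5 1, single 1 5 1, single 5 5 1]

/-- The linear map with Kraus family `L`. -/
def kr {n m κ : Type*} [Fintype n] [Fintype m] [Fintype κ] (L : κ → Matrix m n ℂ) :
    Matrix n n ℂ →ₗ[ℂ] Matrix m m ℂ where
  toFun a := ∑ k, L k * a * (L k)ᴴ
  map_add' a b := by
    simp only [Matrix.mul_add, Matrix.add_mul, Finset.sum_add_distrib]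
  map_smul' c a := by
    simp only [RingHom.id_apply, Finset.smul_sum, Matrix.mul_smul, Matrix.smul_mul]

lemma kr_apply {n m κ : Type*} [Fintype n] [Fintype m] [Fintype κ] (L : κ → Matrix m n ℂ)
    (a : Matrix n n ℂ) : kr L a = ∑ k, L k * a * (L k)ᴴ := rfl

lemma kr1 (M : Matrix (Fin 6) (Fin 6) ℂ) : kr L1 M =
    !![M 0 0, 0, M 0 2, 0, 0, 0; 0, M 0 0, 0, M 0 3, 0, 0; M 2 0, 0, M 2 2, 0, 0, 0;
      0, M 3 0, 0, M 3 3, 0, 0; 0, 0, 0, 0, M 5 5, 0; 0, 0, 0, 0, 0, M 5 5] := by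
  ext i j
  fin_cases i <;> fin_cases j <;>
    simp [kr_apply, L1, Matrix.mul_apply, Fin.sum_univ_succ, Matrix.single_apply]

lemma kr2 (M : Matrix (Fin 6) (Fin 6) ℂ) : kr L2 M =
    !![M 0 0, -M 0 1, 0, 0, M 0 4, 0; -M 1 0, M 1 1, 0, 0, -M 1 4, 0; 0, 0, M 5 5, 0, 0, 0;
      0, 0, 0, M 5 5, 0, 0; M 4 0, -M 4 1, 0, 0, M 4 4, 0; 0, 0, 0, 0, 0, M 5 5] := by
  ext i j
  fin_cases i <;> fin_cases j <;>
    simp [kr_apply, L2, Matrix.mul_apply, Fin.sum_univ_succ, Matrix.single_apply]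

lemma kr3 (M : Matrix (Fin 6) (Fin 6) ℂ) : kr L3 M =
    !![M 5 5, 0, 0, 0, 0, 0; 0, M 5 5, 0, 0, 0, 0; 0, 0, M 3 3, M 3 2, M 3 4, 0;
      0, 0, M 2 3, M 2 2, M 2 4, 0; 0, 0, M 4 3, M 4 2, M 4 4, 0; 0, 0, 0, 0, 0, M 5 5] := by
  ext i j
  fin_cases i <;> fin_cases j <;>
    simp [kr_apply, L3, Matrix.mul_apply, Fin.sum_univ_succ, Matrix.single_apply]

lemma comm12 (M : Matrix (Fin 6) (Fin 6) ℂ) : kr L1 (kr L2 M) = kr L2 (kr L1 M) := by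
  rw [kr1 (kr L2 M), kr2 (kr L1 M), kr1 M, kr2 M]
  ext i j
  fin_cases i <;> fin_cases j <;> simp

lemma comm13 (M : Matrix (Fin 6) (Fin 6) ℂ) : kr L1 (kr L3 M) = kr L3 (kr L1 M) := by
  rw [kr1 (kr L3 M), kr3 (kr L1 M), kr1 M, kr3 M]
  ext i j
  fin_cases i <;> fin_cases j <;> simp

lemma comm23 (M : Matrix (Fin 6) (Fin 6) ℂ) : kr L2 (kr L3 M) = kr L3 (kr L2 M) := by
  rw [kr2 (kr L3 M), kr3 (kr L2 M), kr2 M, kr3 M]
  ext i j
  fin_cases i <;> fin_cases j <;> simp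

lemma un1 : kr L1 1 = 1 := by
  rw [kr1]
  ext i j
  fin_cases i <;> fin_cases j <;> simp

lemma un2 : kr L2 1 = 1 := by
  rw [kr2]
  ext i j
  fin_cases i <;> fin_cases j <;> simp

lemma un3 : kr L3 1 = 1 := by
  rw [kr3]
  ext i j
  fin_cases i <;> fin_cases j <;> simp

lemma S11_eq : S11 = single 0 0 1 + single 2 2 1 := by
  ext i j; fin_cases i <;> fin_cases j <;> simp [S11]

lemma S12_eq : S12 = single 1 0 1 + single 3 3 1 := by
  ext i j; fin_cases i <;> fin_cases j <;> simp [S12]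

lemma S2_eq : S2 = single 0 0 1 - single 1 1 1 + single 4 4 1 := by
  ext i j; fin_cases i <;> fin_cases j <;> simp [S2]

lemma S3_eq : S3 = single 2 3 1 + single 3 2 1 + single 4 4 1 := by
  ext i j; fin_cases i <;> fin_cases j <;> simp [S3]

lemma kK1 (a : Matrix (Fin 5) (Fin 5) ℂ) : ∑ k, K1 k * a * star (K1 k) =
    !![a 0 0, 0, a 0 2, 0, 0; 0, a 0 0, 0, a 0 3, 0; a 2 0, 0, a 2 2, 0, 0;
      0, a 3 0, 0, a 3 3, 0; 0, 0, 0, 0, 0] := by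
  ext i j
  fin_cases i <;> fin_cases j <;>
    simp [K1, S11_eq, S12_eq, Matrix.mul_apply, Fin.sum_univ_succ, Matrix.star_apply,
      Matrix.single_apply]

lemma kK2 (a : Matrix (Fin 5) (Fin 5) ℂ) : ∑ k, K2 k * a * star (K2 k) =
    !![a 0 0, -a 0 1, 0, 0, a 0 4; -a 1 0, a 1 1, 0, 0, -a 1 4; 0, 0, 0, 0, 0;
      0, 0, 0, 0, 0; a 4 0, -a 4 1, 0, 0, a 4 4] := by
  ext i j
  fin_cases i <;> fin_cases j <;>
    simp [K2, S2_eq, Matrix.mul_apply, Fin.sum_univ_succ, Matrix.star_apply, Matrix.single_apply]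

lemma kK3 (a : Matrix (Fin 5) (Fin 5) ℂ) : ∑ k, K3 k * a * star (K3 k) =
    !![0, 0, 0, 0, 0; 0, 0, 0, 0, 0; 0, 0, a 3 3, a 3 2, a 3 4;
      0, 0, a 2 3, a 2 2, a 2 4; 0, 0, a 4 3, a 4 2, a 4 4] := by
  ext i j
  fin_cases i <;> fin_cases j <;>
    simp [K3, S3_eq, Matrix.mul_apply, Fin.sum_univ_succ, Matrix.star_apply, Matrix.single_apply]

lemma krW1 (a : Matrix (Fin 5) (Fin 5) ℂ) :
    kr L1 (W * a * Wᴴ) = W * (∑ k, K1 k * a * star (K1 k)) * Wᴴ := by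
  rw [kr1, kK1, WaW, WaW]
  ext i j
  fin_cases i <;> fin_cases j <;> simp

lemma krW2 (a : Matrix (Fin 5) (Fin 5) ℂ) :
    kr L2 (W * a * Wᴴ) = W * (∑ k, K2 k * a * star (K2 k)) * Wᴴ := by
  rw [kr2, kK2, WaW, WaW]
  ext i j
  fin_cases i <;> fin_cases j <;> simp

lemma krW3 (a : Matrix (Fin 5) (Fin 5) ℂ) :
    kr L3 (W * a * Wᴴ) = W * (∑ k, K3 k * a * star (K3 k)) * Wᴴ := by
  rw [kr3, kK3, WaW, WaW]
  ext i j
  fin_cases i <;> fin_cases j <;> simp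

/-- The non-unital embedding of `M_5` in `M_6`. -/
def emb : Matrix (Fin 5) (Fin 5) ℂ →⋆ₙₐ[ℂ] Matrix (Fin 6) (Fin 6) ℂ where
  toFun a := W * a * Wᴴ
  map_smul' c a := by simp
  map_zero' := by simp
  map_add' a b := by rw [Matrix.mul_add, Matrix.add_mul]
  map_mul' a b := by
    have h : W * (a * b) * Wᴴ = W * a * (Wᴴ * W) * b * Wᴴ := by
      rw [W_iso]
      simp only [Matrix.mul_assoc, Matrix.one_mul]
    rw [h]
    simp only [Matrix.mul_assoc]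
  map_star' a := by
    simp [Matrix.star_eq_conjTranspose, Matrix.conjTranspose_mul, Matrix.mul_assoc]

lemma emb_apply (a : Matrix (Fin 5) (Fin 5) ℂ) : emb a = W * a * Wᴴ := rfl

section

variable {R : Type*} [Ring R] [StarRing R] [Algebra ℂ R] [StarModule ℂ R]

/-- No three commuting endomorphisms compress to the three unital maps. -/
theorem no_unital (ι : Matrix (Fin 6) (Fin 6) ℂ →⋆ₙₐ[ℂ] R) (θ₁ θ₂ θ₃ : R →⋆ₙₐ[ℂ] R)
    (hR : ∀ b : R, star b * b = 0 → b = 0)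
    (c12 : ∀ b, θ₁ (θ₂ b) = θ₂ (θ₁ b)) (c13 : ∀ b, θ₁ (θ₃ b) = θ₃ (θ₁ b))
    (c23 : ∀ b, θ₂ (θ₃ b) = θ₃ (θ₂ b))
    (hT1 : ∀ a, ι 1 * θ₁ (ι a) * ι 1 = ι (kr L1 a))
    (hT2 : ∀ a, ι 1 * θ₂ (ι a) * ι 1 = ι (kr L2 a))
    (hT3 : ∀ a, ι 1 * θ₃ (ι a) * ι 1 = ι (kr L3 a)) : ι (W * Wᴴ) = 0 := by
  have hp : (ι 1 * ι 1 : R) = ι 1 := by rw [← map_mul, one_mul]
  have hps : star (ι 1) = ι 1 := by rw [← map_star, star_one]
  have hPe : emb 1 = W * Wᴴ := by rw [emb_apply, Matrix.mul_one]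
  have hPs : star (ι (emb 1)) = ι (emb 1) := by rw [← map_star, ← map_star, star_one]
  have hPP : ι (emb 1) * ι (emb 1) = ι (emb 1) := by rw [← map_mul, ← map_mul, one_mul]
  have hpP : ι 1 * ι (emb 1) = ι (emb 1) := by rw [← map_mul, one_mul]
  have hPp : ι (emb 1) * ι 1 = ι (emb 1) := by rw [← map_mul, mul_one]
  -- general facts for one endomorphism
  have step : ∀ (θ : R →⋆ₙₐ[ℂ] R) (F : Matrix (Fin 6) (Fin 6) ℂ →ₗ[ℂ] Matrix (Fin 6) (Fin 6) ℂ)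
      (G : Matrix (Fin 5) (Fin 5) ℂ → Matrix (Fin 5) (Fin 5) ℂ),
      (∀ a, ι 1 * θ (ι a) * ι 1 = ι (F a)) → F 1 = 1 → (∀ a, F (W * a * Wᴴ) = W * G a * Wᴴ) →
      (∀ a, (ι.comp emb) 1 * θ ((ι.comp emb) a) * (ι.comp emb) 1 = (ι.comp emb) (G a)) ∧
      θ (ι 1) * ι 1 = ι 1 ∧ θ (ι (emb 1)) * ι 1 = θ (ι (emb 1)) * ι (emb 1) := by
    intro θ F G h1 h2 h3
    have hθs : ∀ b : R, star b = b → star (θ b) = θ b := fun b hb => by rw [← map_star, hb]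
    refine ⟨?_, ?_, ?_⟩
    · intro a
      simp only [NonUnitalStarAlgHom.comp_apply]
      calc ι (emb 1) * θ (ι (emb a)) * ι (emb 1)
          = (ι (emb 1) * ι 1) * θ (ι (emb a)) * (ι 1 * ι (emb 1)) := by rw [hpP, hPp]
        _ = ι (emb 1) * (ι 1 * θ (ι (emb a)) * ι 1) * ι (emb 1) := by noncomm_ring
        _ = ι (emb 1 * emb (G a) * emb 1) := by
          rw [h1, emb_apply a, h3, ← emb_apply (G a), map_mul, map_mul]
        _ = _ := by rw [← map_mul, ← map_mul, one_mul, mul_one]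
    · have h4 : ι 1 * θ (ι 1) * ι 1 = ι 1 := by rw [h1, h2]
      rw [← sub_eq_zero]
      apply hR
      have h5 : θ (ι 1) * θ (ι 1) = θ (ι 1) := by rw [← map_mul, hp]
      rw [star_sub, star_mul, hps, hθs _ hps]
      calc (ι 1 * θ (ι 1) - ι 1) * (θ (ι 1) * ι 1 - ι 1)
          = ι 1 * (θ (ι 1) * θ (ι 1)) * ι 1 - ι 1 * θ (ι 1) * ι 1 - ι 1 * θ (ι 1) * ι 1 +
            ι 1 * ι 1 := by noncomm_ring
        _ = 0 := by rw [h5, h4, hp]; noncomm_ring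
    · have hq : (1 : Matrix (Fin 6) (Fin 6) ℂ) = emb 1 + single 5 5 1 := by rw [hPe, W_range]
      have h6 : θ (ι (emb 1)) * ι (single 5 5 1) = 0 := by
        apply hR
        rw [star_mul, hθs _ hPs, ← map_star, star_single']
        have h7 : θ (ι (emb 1)) * θ (ι (emb 1)) = θ (ι (emb 1)) := by rw [← map_mul, hPP]
        have h8 : ι (single 5 5 1) = ι (single 5 5 1) * ι 1 := by rw [← map_mul, mul_one]
        have h9 : ι (single 5 5 1) = ι 1 * ι (single 5 5 1) := by rw [← map_mul, one_mul]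
        calc ι (single 5 5 1) * θ (ι (emb 1)) * (θ (ι (emb 1)) * ι (single 5 5 1))
            = ι (single 5 5 1) * (θ (ι (emb 1)) * θ (ι (emb 1))) * ι (single 5 5 1) := by
              noncomm_ring
          _ = (ι (single 5 5 1) * ι 1) * θ (ι (emb 1)) * (ι 1 * ι (single 5 5 1)) := by
            rw [h7, ← h8, ← h9]
          _ = ι (single 5 5 1) * (ι 1 * θ (ι (emb 1)) * ι 1) * ι (single 5 5 1) := by
            noncomm_ring
          _ = ι (single 5 5 1 * (W * (G 1 * Wᴴ)) * single 5 5 1) := by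
            rw [h1, emb_apply 1, h3, map_mul, map_mul, Matrix.mul_assoc W]
          _ = 0 := by rw [← Matrix.mul_assoc (single 5 5 1) W, E_W]; simp
      have h10 : ι 1 = ι (emb 1) + ι (single 5 5 1) := by rw [← map_add, ← hq]
      rw [h10, mul_add, h6, add_zero]
  obtain ⟨a1, b1, d1⟩ := step θ₁ _ _ hT1 un1 krW1
  obtain ⟨a2, b2, d2⟩ := step θ₂ _ _ hT2 un2 krW2
  obtain ⟨a3, b3, d3⟩ := step θ₃ _ _ hT3 un3 krW3
  have strong : ∀ θ θ' : R →⋆ₙₐ[ℂ] R, θ (ι 1) * ι 1 = ι 1 →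
      θ' (ι (emb 1)) * ι 1 = θ' (ι (emb 1)) * ι (emb 1) →
      θ (θ' ((ι.comp emb) 1)) * θ ((ι.comp emb) 1) * (ι.comp emb) 1 =
        θ (θ' ((ι.comp emb) 1)) * (ι.comp emb) 1 := by
    intro θ θ' h1 h2
    simp only [NonUnitalStarAlgHom.comp_apply]
    have h3 : θ (ι 1) * ι (emb 1) = ι (emb 1) := by
      calc θ (ι 1) * ι (emb 1) = θ (ι 1) * ι 1 * ι (emb 1) := by rw [mul_assoc, hpP]
        _ = ι (emb 1) := by rw [h1, hpP]
    calc θ (θ' (ι (emb 1))) * θ (ι (emb 1)) * ι (emb 1)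
        = θ (θ' (ι (emb 1)) * ι (emb 1)) * ι (emb 1) := by rw [map_mul]
      _ = θ (θ' (ι (emb 1))) * (θ (ι 1) * ι (emb 1)) := by rw [← h2, map_mul, mul_assoc]
      _ = θ (θ' (ι (emb 1))) * ι (emb 1) := by rw [h3]
  have := twist (ι.comp emb) θ₁ θ₂ θ₃ hR c12 c13 c23 a1 a2 a3 (strong _ _ b1 d2)
    (strong _ _ b2 d1) (strong _ _ b1 d3) (strong _ _ b3 d1) (strong _ _ b2 d3) (strong _ _ b3 d2)
  rw [NonUnitalStarAlgHom.comp_apply, hPe] at this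
  exact this

end

end Pool.Agent.D0H28.NoDil
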