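import Pool.Agent.D0H28.NoDil.Ex

/-!
# Maps given by Kraus families of operators
-/

set_option autoImplicit false
set_option linter.unusedSectionVars false

namespace Pool.Agent.D0H28.NoDil

open Matrix ComplexOrder Filter Topology

section Kraus

variable {H : Type*} [NormedAddCommGroup H] [InnerProductSpace ℂ H] [CompleteSpace H]
variable {κ : Type*} [Fintype κ]

/-- The linear map `a ↦ ∑ K_k a K_k^*`. -/
noncomputable def krOp (K : κ → H →L[ℂ] H) : (H →L[ℂ] H) →ₗ[ℂ] (H →L[ℂ] H) where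
  toFun a := ∑ k, K k * a * star (K k)
  map_add' a b := by simp only [mul_add, add_mul, Finset.sum_add_distrib]
  map_smul' c a := by
    simp only [RingHom.id_apply, Finset.smul_sum, mul_smul_comm, smul_mul_assoc]

lemma krOp_apply (K : κ → H →L[ℂ] H) (a : H →L[ℂ] H) : krOp K a = ∑ k, K k * a * star (K k) := rfl

lemma inner_krOp (K : κ → H →L[ℂ] H) (a : H →L[ℂ] H) (x y : H) :
    inner ℂ x (krOp K a y) = ∑ k, inner ℂ (star (K k) x) (a (star (K k) y)) := by
  rw [krOp_apply, _root_.sum_apply, inner_sum]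
  refine Finset.sum_congr rfl fun k _ => ?_
  rw [mul_apply_eq_comp, mul_apply_eq_comp,
    ContinuousLinearMap.star_eq_adjoint, ContinuousLinearMap.adjoint_inner_left]

lemma krOp_cp (K : κ → H →L[ℂ] H) (m : ℕ) (a : Fin m → H →L[ℂ] H) (x : Fin m → H) :
    0 ≤ ∑ i, ∑ j, inner ℂ (x i) (krOp K (star (a i) * a j) (x j)) := by
  have h : ∑ i, ∑ j, inner ℂ (x i) (krOp K (star (a i) * a j) (x j)) =
      ∑ k, inner ℂ (∑ i, a i (star (K k) (x i))) (∑ j, a j (star (K k) (x j))) := by
    have h2 : ∀ i j : Fin m, inner ℂ (x i) (krOp K (star (a i) * a j) (x j)) =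
        ∑ k, inner ℂ (a i (star (K k) (x i))) (a j (star (K k) (x j))) := by
      intro i j
      rw [inner_krOp]
      refine Finset.sum_congr rfl fun k _ => ?_
      rw [mul_apply_eq_comp, ContinuousLinearMap.star_eq_adjoint (a i),
        ContinuousLinearMap.adjoint_inner_right]
    calc ∑ i, ∑ j, inner ℂ (x i) (krOp K (star (a i) * a j) (x j))
        = ∑ i, ∑ j, ∑ k, inner ℂ (a i (star (K k) (x i))) (a j (star (K k) (x j))) :=
          Finset.sum_congr rfl fun i _ => Finset.sum_congr rfl fun j _ => h2 i j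
      _ = ∑ i, ∑ k, ∑ j, inner ℂ (a i (star (K k) (x i))) (a j (star (K k) (x j))) :=
          Finset.sum_congr rfl fun i _ => Finset.sum_comm
      _ = ∑ k, ∑ i, ∑ j, inner ℂ (a i (star (K k) (x i))) (a j (star (K k) (x j))) :=
          Finset.sum_comm
      _ = _ := by
        refine Finset.sum_congr rfl fun k _ => ?_
        rw [sum_inner]
        refine Finset.sum_congr rfl fun i _ => ?_
        rw [inner_sum]
  rw [h]
  refine Finset.sum_nonneg fun k _ => ?_
  rw [inner_self_eq_norm_sq_to_K]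
  norm_cast
  positivity

lemma sum_norm_sq (K : κ → H →L[ℂ] H) (hK : krOp K 1 = 1) (x : H) :
    ∑ k, ‖star (K k) x‖ ^ 2 = ‖x‖ ^ 2 := by
  have h := inner_krOp K 1 x x
  rw [hK] at h
  simp only [one_apply_eq_self, inner_self_eq_norm_sq_to_K] at h
  norm_cast at h
  exact h.symm

lemma krOp_norm_le (K : κ → H →L[ℂ] H) (hK : krOp K 1 = 1) (a : H →L[ℂ] H) :
    ‖krOp K a‖ ≤ ‖a‖ := by
  refine ContinuousLinearMap.opNorm_le_bound _ (norm_nonneg _) fun y => ?_
  have key : ∀ x : H, ‖(inner ℂ x (krOp K a y) : ℂ)‖ ≤ ‖a‖ * ‖y‖ * ‖x‖ := by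
    intro x
    rw [inner_krOp]
    calc ‖∑ k, inner ℂ (star (K k) x) (a (star (K k) y))‖
        ≤ ∑ k, ‖(inner ℂ (star (K k) x) (a (star (K k) y)) : ℂ)‖ := norm_sum_le _ _
      _ ≤ ∑ k, ‖a‖ * (‖star (K k) x‖ * ‖star (K k) y‖) := by
        refine Finset.sum_le_sum fun k _ => ?_
        calc ‖(inner ℂ (star (K k) x) (a (star (K k) y)) : ℂ)‖
            ≤ ‖star (K k) x‖ * ‖a (star (K k) y)‖ := norm_inner_le_norm _ _
          _ ≤ ‖star (K k) x‖ * (‖a‖ * ‖star (K k) y‖) := by
            gcongr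
            exact a.le_opNorm _
          _ = _ := by ring
      _ = ‖a‖ * ∑ k, ‖star (K k) x‖ * ‖star (K k) y‖ := by rw [Finset.mul_sum]
      _ ≤ ‖a‖ * (‖x‖ * ‖y‖) := by
        gcongr
        have h1 := Finset.sum_mul_sq_le_sq_mul_sq Finset.univ (fun k => ‖star (K k) x‖)
          (fun k => ‖star (K k) y‖)
        rw [sum_norm_sq K hK, sum_norm_sq K hK, ← mul_pow] at h1
        exact (pow_le_pow_iff_left₀ (by positivity) (by positivity) two_ne_zero).1 h1
      _ = _ := by ring
  by_cases h0 : krOp K a y = 0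
  · rw [h0, norm_zero]; positivity
  · have h1 := key (krOp K a y)
    rw [inner_self_eq_norm_sq_to_K] at h1
    norm_cast at h1
    rw [abs_of_nonneg (by positivity), sq] at h1
    exact le_of_mul_le_mul_right h1 (norm_pos_iff.2 h0)

lemma krOp_normal (K : κ → H →L[ℂ] H) {I : Type*} (l : Filter I) (a : I → H →L[ℂ] H)
    (b : H →L[ℂ] H)
    (h : ∀ x, Tendsto (fun i => (inner ℂ x (a i x) : ℂ)) l (𝓝 (inner ℂ x (b x)))) (x : H) :
    Tendsto (fun i => (inner ℂ x (krOp K (a i) x) : ℂ)) l (𝓝 (inner ℂ x (krOp K b x))) := by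
  simp_rw [inner_krOp]
  exact tendsto_finsetSum _ fun k _ => h _

end Kraus

section Conj

variable {H K : Type*} [NormedAddCommGroup H] [InnerProductSpace ℂ H] [CompleteSpace H]
  [NormedAddCommGroup K] [InnerProductSpace ℂ K] [CompleteSpace K]

/-- Conjugation with an isometry: `a ↦ V a V^*`. -/
noncomputable def conj (V : H →ₗᵢ[ℂ] K) : (H →L[ℂ] H) →⋆ₙₐ[ℂ] (K →L[ℂ] K) where
  toFun a := V.toContinuousLinearMap ∘L a ∘L
    ContinuousLinearMap.adjoint V.toContinuousLinearMap
  map_smul' c a := by ext x; simp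
  map_zero' := by ext x; simp
  map_add' a b := by ext x; simp
  map_mul' a b := by
    ext x
    change V (a (b _)) = V (a (ContinuousLinearMap.adjoint V.toContinuousLinearMap
      (V.toContinuousLinearMap (b _))))
    have h := congrArg (fun f => f (b (ContinuousLinearMap.adjoint V.toContinuousLinearMap x)))
      (V.adjoint_comp_self)
    exact (congrArg (fun w => V (a w)) h).symm
  map_star' a := by
    ext x
    refine ext_inner_left ℂ fun y => ?_
    simp [ContinuousLinearMap.star_eq_adjoint, ContinuousLinearMap.adjoint_inner_right,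
      ContinuousLinearMap.adjoint_inner_left]

end Conj

end Pool.Agent.D0H28.NoDil
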