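import Pool.Agent.D0H28.NoDil.Core

/-!
# The contradiction for the twisted triple
-/

set_option autoImplicit false
set_option linter.unusedSectionVars false

namespace Pool.Agent.D0H28.NoDil

open Matrix

variable {R : Type*} [Ring R] [StarRing R] [Algebra ℂ R] [StarModule ℂ R]
variable {n : Type*} [Fintype n] [DecidableEq n]
variable (ι : Matrix n n ℂ →⋆ₙₐ[ℂ] R)

theorem two_step {κ κ' : Type*} [Fintype κ] [DecidableEq κ] [Fintype κ'] [DecidableEq κ']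
    {θ θ' : R →⋆ₙₐ[ℂ] R} {S : κ → Matrix n n ℂ} {x : κ → R} {S' : κ' → Matrix n n ℂ} {y : κ' → R}
    (h : Good ι θ S x) (h' : Good ι θ' S' y)
    (h3 : θ' (θ (ι 1)) * θ' (ι 1) * ι 1 = θ' (θ (ι 1)) * ι 1) :
    θ' (θ (ι 1)) * ι 1 = ∑ k, ∑ l, θ' (x k) * y l * ι (star (S' l * S k)) := by
  have hP : (ι 1 * ι 1 : R) = ι 1 := by rw [← map_mul, one_mul]
  have e1 : θ' (θ (ι 1)) * ι 1 = θ' (θ (ι 1) * ι 1) * (θ' (ι 1) * ι 1) := by
    rw [← mul_assoc, ← map_mul, mul_assoc (θ (ι 1)), hP, map_mul, h3]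
  rw [e1, h.decomp, h'.decomp, map_sum, Finset.sum_mul]
  refine Finset.sum_congr rfl fun k _ => ?_
  rw [Finset.mul_sum]
  refine Finset.sum_congr rfl fun l _ => ?_
  rw [map_mul, star_mul, map_mul]
  calc θ' (x k) * θ' (ι (star (S k))) * (y l * ι (star (S' l)))
      = θ' (x k) * (θ' (ι (star (S k))) * y l) * ι (star (S' l)) := by noncomm_ring
    _ = _ := by rw [h'.inter]; noncomm_ring

lemma prod_inter {θ θ' : R →⋆ₙₐ[ℂ] R} {x y : R}
    (hx : ∀ a, θ (ι a) * x = x * ι a) (hy : ∀ a, θ' (ι a) * y = y * ι a) (a : Matrix n n ℂ) :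
    (θ'.comp θ) (ι a) * (θ' x * y) = θ' x * y * ι a := by
  rw [NonUnitalStarAlgHom.comp_apply, ← mul_assoc, ← map_mul, hx, map_mul, mul_assoc, hy,
    mul_assoc]

/-! ### The matrices -/

/-- The first Kraus operator of the first map. -/
def S11 : Matrix (Fin 5) (Fin 5) ℂ :=
  !![1, 0, 0, 0, 0; 0, 0, 0, 0, 0; 0, 0, 1, 0, 0; 0, 0, 0, 0, 0; 0, 0, 0, 0, 0]

/-- The second Kraus operator of the first map. -/
def S12 : Matrix (Fin 5) (Fin 5) ℂ :=
  !![0, 0, 0, 0, 0; 1, 0, 0, 0, 0; 0, 0, 0, 0, 0; 0, 0, 0, 1, 0; 0, 0, 0, 0, 0]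

/-- The Kraus operator of the second map. -/
def S2 : Matrix (Fin 5) (Fin 5) ℂ :=
  !![1, 0, 0, 0, 0; 0, -1, 0, 0, 0; 0, 0, 0, 0, 0; 0, 0, 0, 0, 0; 0, 0, 0, 0, 1]

/-- The Kraus operator of the third map. -/
def S3 : Matrix (Fin 5) (Fin 5) ℂ :=
  !![0, 0, 0, 0, 0; 0, 0, 0, 0, 0; 0, 0, 0, 1, 0; 0, 0, 1, 0, 0; 0, 0, 0, 0, 1]

/-- The Kraus family of the first map. -/
def K1 : Fin 2 → Matrix (Fin 5) (Fin 5) ℂ := ![S11, S12]

/-- The Kraus family of the second map. -/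
def K2 : Fin 1 → Matrix (Fin 5) (Fin 5) ℂ := ![S2]

/-- The Kraus family of the third map. -/
def K3 : Fin 1 → Matrix (Fin 5) (Fin 5) ℂ := ![S3]

lemma r21 : S2 * S11 = single 0 0 1 := by
  ext i j; fin_cases i <;> fin_cases j <;> simp [S2, S11, Matrix.mul_apply, Fin.sum_univ_succ]

lemma r12 : S11 * S2 = single 0 0 1 := by
  ext i j; fin_cases i <;> fin_cases j <;> simp [S2, S11, Matrix.mul_apply, Fin.sum_univ_succ]

lemma r22 : S2 * S12 = - single 1 0 1 := by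
  ext i j; fin_cases i <;> fin_cases j <;> simp [S2, S12, Matrix.mul_apply, Fin.sum_univ_succ]

lemma r22' : S12 * S2 = single 1 0 1 := by
  ext i j; fin_cases i <;> fin_cases j <;> simp [S2, S12, Matrix.mul_apply, Fin.sum_univ_succ]

lemma r31 : S3 * S11 = single 3 2 1 := by
  ext i j; fin_cases i <;> fin_cases j <;> simp [S3, S11, Matrix.mul_apply, Fin.sum_univ_succ]

lemma r13 : S11 * S3 = single 2 3 1 := by
  ext i j; fin_cases i <;> fin_cases j <;> simp [S3, S11, Matrix.mul_apply, Fin.sum_univ_succ]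

lemma r32 : S3 * S12 = single 2 3 1 := by
  ext i j; fin_cases i <;> fin_cases j <;> simp [S3, S12, Matrix.mul_apply, Fin.sum_univ_succ]

lemma r23' : S12 * S3 = single 3 2 1 := by
  ext i j; fin_cases i <;> fin_cases j <;> simp [S3, S12, Matrix.mul_apply, Fin.sum_univ_succ]

lemma r23 : S2 * S3 = single 4 4 1 := by
  ext i j; fin_cases i <;> fin_cases j <;> simp [S3, S2, Matrix.mul_apply, Fin.sum_univ_succ]

lemma r32' : S3 * S2 = single 4 4 1 := by
  ext i j; fin_cases i <;> fin_cases j <;> simp [S3, S2, Matrix.mul_apply, Fin.sum_univ_succ]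

/-- If commuting endomorphisms `θ₁`, `θ₂`, `θ₃` compress to the maps with Kraus families `K1`, `K2`,
`K3`, strongly, then the corner is zero. -/
theorem twist (ι : Matrix (Fin 5) (Fin 5) ℂ →⋆ₙₐ[ℂ] R) (θ₁ θ₂ θ₃ : R →⋆ₙₐ[ℂ] R)
    (hR : ∀ b : R, star b * b = 0 → b = 0)
    (c12 : ∀ b, θ₁ (θ₂ b) = θ₂ (θ₁ b)) (c13 : ∀ b, θ₁ (θ₃ b) = θ₃ (θ₁ b))
    (c23 : ∀ b, θ₂ (θ₃ b) = θ₃ (θ₂ b))
    (hT1 : ∀ a, ι 1 * θ₁ (ι a) * ι 1 = ι (∑ k, K1 k * a * star (K1 k)))
    (hT2 : ∀ a, ι 1 * θ₂ (ι a) * ι 1 = ι (∑ k, K2 k * a * star (K2 k)))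
    (hT3 : ∀ a, ι 1 * θ₃ (ι a) * ι 1 = ι (∑ k, K3 k * a * star (K3 k)))
    (s12 : θ₁ (θ₂ (ι 1)) * θ₁ (ι 1) * ι 1 = θ₁ (θ₂ (ι 1)) * ι 1)
    (s21 : θ₂ (θ₁ (ι 1)) * θ₂ (ι 1) * ι 1 = θ₂ (θ₁ (ι 1)) * ι 1)
    (s13 : θ₁ (θ₃ (ι 1)) * θ₁ (ι 1) * ι 1 = θ₁ (θ₃ (ι 1)) * ι 1)
    (s31 : θ₃ (θ₁ (ι 1)) * θ₃ (ι 1) * ι 1 = θ₃ (θ₁ (ι 1)) * ι 1)
    (s23 : θ₂ (θ₃ (ι 1)) * θ₂ (ι 1) * ι 1 = θ₂ (θ₃ (ι 1)) * ι 1)
    (s32 : θ₃ (θ₂ (ι 1)) * θ₃ (ι 1) * ι 1 = θ₃ (θ₂ (ι 1)) * ι 1) :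
    ι 1 = 0 := by
  obtain ⟨x, gx⟩ := exists_good ι θ₁ K1 ![0, 0] ![0, 1] (by
    intro k l; fin_cases k <;> fin_cases l <;> simp [K1, S11, S12]) hR hT1
  obtain ⟨y, gy⟩ := exists_good ι θ₂ K2 ![0] ![0] (by
    intro k l; fin_cases k; fin_cases l; simp [K2, S2]) hR hT2
  obtain ⟨z, gz⟩ := exists_good ι θ₃ K3 ![4] ![4] (by
    intro k l; fin_cases k; fin_cases l; simp [K3, S3]) hR hT3
  have hP : (ι 1 * ι 1 : R) = ι 1 := by rw [← map_mul, one_mul]
  -- the relations between `x` and `y`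
  have e21 := two_step ι gx gy s21
  have e12 := two_step ι gy gx s12
  rw [c12, e21] at e12
  simp only [Fin.sum_univ_two, Fin.sum_univ_one, K1, K2, Fin.isValue, cons_val_zero, cons_val_one,
    cons_val_fin_one, r21, r12, r22, r22', star_neg, star_single', map_neg, mul_neg] at e12
  have hxy0 : θ₂ (x 0) * y 0 = θ₁ (y 0) * x 0 := by
    refine eq_of_corner ι (φ := θ₂.comp θ₁) (prod_inter ι (fun a => gx.inter a 0)
      (fun a => gy.inter a 0)) (by rw [mul_assoc, gy.mulP]) ?_ (by rw [mul_assoc, gx.mulP]) 0 ?_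
    · intro a
      have := prod_inter ι (fun a => gy.inter a 0) (fun a => gx.inter a 0) a
      rw [NonUnitalStarAlgHom.comp_apply, c12] at this
      exact this
    · have := congrArg (fun w => w * ι (single 0 0 1)) e12
      simp only [add_mul, neg_mul, mul_assoc, ← map_mul] at this
      simpa [mul_assoc] using this
  have hxy1 : θ₂ (x 1) * y 0 = - (θ₁ (y 0) * x 1) := by
    refine eq_of_corner ι (φ := θ₂.comp θ₁) (prod_inter ι (fun a => gx.inter a 1)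
      (fun a => gy.inter a 0)) (by rw [mul_assoc, gy.mulP]) ?_
      (by rw [neg_mul, mul_assoc, gx.mulP]) 0 ?_
    · intro a
      have := prod_inter ι (fun a => gy.inter a 0) (fun a => gx.inter a 1) a
      rw [NonUnitalStarAlgHom.comp_apply, c12] at this
      rw [mul_neg, neg_mul, NonUnitalStarAlgHom.comp_apply, this]
    · have := congrArg (fun w => w * ι (single 1 0 1)) e12
      simp only [add_mul, neg_mul, mul_assoc, ← map_mul] at this
      have h2 : -(θ₂ (x 1) * y 0 * ι (single 0 0 1)) = θ₁ (y 0) * x 1 * ι (single 0 0 1) := by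
        simpa [mul_assoc] using this
      rw [neg_mul, ← h2, neg_neg]
  -- the relations between `x` and `z`
  have e31 := two_step ι gx gz s31
  have e13 := two_step ι gz gx s13
  rw [c13, e31] at e13
  simp only [Fin.sum_univ_two, Fin.sum_univ_one, K1, K3, Fin.isValue, cons_val_zero, cons_val_one,
    cons_val_fin_one, r31, r13, r32, r23', star_single'] at e13
  have hxz0 : θ₃ (x 0) * z 0 = θ₁ (z 0) * x 1 := by
    refine eq_of_corner ι (φ := θ₃.comp θ₁) (prod_inter ι (fun a => gx.inter a 0)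
      (fun a => gz.inter a 0)) (by rw [mul_assoc, gz.mulP]) ?_ (by rw [mul_assoc, gx.mulP]) 2 ?_
    · intro a
      have := prod_inter ι (fun a => gz.inter a 0) (fun a => gx.inter a 1) a
      rw [NonUnitalStarAlgHom.comp_apply, c13] at this
      exact this
    · have := congrArg (fun w => w * ι (single 3 2 1)) e13
      simp only [add_mul, mul_assoc, ← map_mul] at this
      simpa [mul_assoc] using this
  have hxz1 : θ₃ (x 1) * z 0 = θ₁ (z 0) * x 0 := by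
    refine eq_of_corner ι (φ := θ₃.comp θ₁) (prod_inter ι (fun a => gx.inter a 1)
      (fun a => gz.inter a 0)) (by rw [mul_assoc, gz.mulP]) ?_ (by rw [mul_assoc, gx.mulP]) 3 ?_
    · intro a
      have := prod_inter ι (fun a => gz.inter a 0) (fun a => gx.inter a 0) a
      rw [NonUnitalStarAlgHom.comp_apply, c13] at this
      exact this
    · have := congrArg (fun w => w * ι (single 2 3 1)) e13
      simp only [add_mul, neg_mul, mul_assoc, ← map_mul] at this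
      simpa [mul_assoc] using this
  -- the relations between `y` and `z`
  have e32 := two_step ι gy gz s32
  have e23 := two_step ι gz gy s23
  rw [c23, e32] at e23
  simp only [Fin.sum_univ_one, K2, K3, Fin.isValue, cons_val_zero,
    cons_val_fin_one, r23, r32', star_single'] at e23
  have hyz : θ₃ (y 0) * z 0 = θ₂ (z 0) * y 0 := by
    refine eq_of_corner ι (φ := θ₃.comp θ₂) (prod_inter ι (fun a => gy.inter a 0)
      (fun a => gz.inter a 0)) (by rw [mul_assoc, gz.mulP]) ?_ (by rw [mul_assoc, gy.mulP]) 4 ?_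
    · intro a
      have := prod_inter ι (fun a => gz.inter a 0) (fun a => gy.inter a 0) a
      rw [NonUnitalStarAlgHom.comp_apply, c23] at this
      exact this
    · simpa [mul_assoc] using e23
  -- the triple product
  have hw : θ₃ (θ₂ (x 0) * y 0) * z 0 = - (θ₃ (θ₂ (x 0) * y 0) * z 0) := by
    calc θ₃ (θ₂ (x 0) * y 0) * z 0 = θ₃ (θ₁ (y 0) * x 0) * z 0 := by rw [hxy0]
      _ = θ₁ (θ₃ (y 0)) * (θ₃ (x 0) * z 0) := by rw [map_mul, c13]; noncomm_ring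
      _ = θ₁ (θ₃ (y 0) * z 0) * x 1 := by rw [hxz0, map_mul]; noncomm_ring
      _ = θ₁ (θ₂ (z 0)) * (θ₁ (y 0) * x 1) := by rw [hyz, map_mul]; noncomm_ring
      _ = θ₂ (θ₁ (z 0)) * (- (θ₂ (x 1) * y 0)) := by rw [hxy1, c12]; noncomm_ring
      _ = - (θ₂ (θ₁ (z 0) * x 1) * y 0) := by rw [map_mul]; noncomm_ring
      _ = - (θ₂ (θ₃ (x 0)) * (θ₂ (z 0) * y 0)) := by rw [← hxz0, map_mul]; noncomm_ring
      _ = - (θ₃ (θ₂ (x 0) * y 0) * z 0) := by rw [← hyz, c23, map_mul]; noncomm_ring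
  have hw0 : θ₃ (θ₂ (x 0) * y 0) * z 0 = 0 := by
    have h2 : (2 : ℂ) • (θ₃ (θ₂ (x 0) * y 0) * z 0) = 0 := by
      rw [two_smul]
      nth_rewrite 1 [hw]
      simp
    simpa using congrArg (fun w => (2 : ℂ)⁻¹ • w) h2
  have horth := gx.orth 0 0
  have hyorth := gy.orth 0 0
  have hzorth := gz.orth 0 0
  simp only [if_true] at horth hyorth hzorth
  have hPy : θ₂ (ι 1) * y 0 = y 0 := by rw [gy.inter, gy.mulP]
  have hPz : θ₃ (ι 1) * z 0 = z 0 := by rw [gz.inter, gz.mulP]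
  have : star (θ₃ (θ₂ (x 0) * y 0) * z 0) * (θ₃ (θ₂ (x 0) * y 0) * z 0) = ι 1 := by
    calc star (θ₃ (θ₂ (x 0) * y 0) * z 0) * (θ₃ (θ₂ (x 0) * y 0) * z 0)
        = star (z 0) * θ₃ (star (y 0) * θ₂ (star (x 0) * x 0) * y 0) * z 0 := by
          rw [star_mul, ← map_star, star_mul, ← map_star]
          simp only [map_mul]
          noncomm_ring
      _ = star (z 0) * θ₃ (star (y 0) * (θ₂ (ι 1) * y 0)) * z 0 := by rw [horth]; noncomm_ring
      _ = star (z 0) * (θ₃ (ι 1) * z 0) := by rw [hPy, hyorth]; noncomm_ring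
      _ = ι 1 := by rw [hPz, hzorth]
  rw [← this, hw0, mul_zero]

end Pool.Agent.D0H28.NoDil
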